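import Pool.Agent.Lib.MP_99e3ed_co.H87.Final
import Pool.Agent.Lib.MP_99e3ed_co.H59.Final

/-! The ratio form and the expectation form for graphs on an arbitrary vertex type. -/

set_option autoImplicit false

open Finset
open Classical
open Pool.Agent.Lib.MP_99e3ed_co.H90
open Pool.Agent.Lib.MP_99e3ed_co.Ratio
open Pool.Agent.Lib.MP_99e3ed_co.H87
open Pool.Agent.MP_99e3ed_co

namespace Pool.Agent.Lib.MP_99e3ed_co.H91

theorem ratio_three (d m : ℕ) (hd : 3 ≤ d) {V : Type} [Fintype V]
    (hV : Fintype.card V = 2 * d * m) (G : SimpleGraph V)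
    (hG : G.IsRegularOfDegree d) (K : ℕ) :
    cnt G univ (K + 1) * cnt (kddUnion d m) univ K ≤
      cnt (kddUnion d m) univ (K + 1) * cnt G univ K := by
  have hF : (univ : Finset V).card = d * m + d * m := by
    rw [Finset.card_univ, hV]; ring
  have hdeg : ∀ u ∈ (univ : Finset V), (H90.nb G univ u).card ≤ d :=
    fun u _ => (nb_univ_card G hG u).le
  have hed : 2 * (d * (d * m)) ≤ ed G univ univ := by
    rw [ed_eq, Finset.sum_congr rfl (fun v _ => nb_univ_card G hG v), Finset.sum_const,
      smul_eq_mul, hF]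
    apply le_of_eq; ring
  obtain ⟨c1, c2⟩ := claims G H59.fb d hd (K + 1) (by omega) univ (d * m) (d * m) hF hed hdeg
  have e1 : K + 1 - 1 = K := by omega
  rw [e1] at c1 c2
  have hT : (cnt G univ (K + 1) : ℝ) * TT d K (d * m) ((d * m : ℕ) : ℝ) ≤
      TT d (K + 1) (d * m) ((d * m : ℕ) : ℝ) * cnt G univ K := by
    rcases Nat.lt_or_ge (d * m) ((K + 1 - 2) * d) with h | h
    · exact c1 h
    · exact kind_mul d (d * m) m K _ _ (by omega) le_rfl (c2 h)
  have hph : ∀ j : ℕ, (cnt (kddUnion d m) univ j : ℝ) =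
      2 ^ m * TT d j (d * m) ((d * m : ℕ) : ℝ) := by
    intro j
    rw [← H64.ttph d j (d * m) m (by omega) le_rfl, ← kdd_cnt d m (by omega) j]
    simp
  have h2 : (0 : ℝ) < 2 ^ m := by positivity
  have h3 : (cnt G univ (K + 1) : ℝ) * cnt (kddUnion d m) univ K ≤
      cnt (kddUnion d m) univ (K + 1) * cnt G univ K := by
    rw [hph, hph]
    have := mul_le_mul_of_nonneg_left hT h2.le
    linarith
  exact_mod_cast h3

/-- the ratio form -/
theorem ratio_all (d m : ℕ) (hd0 : 1 ≤ d) {V : Type} [Fintype V]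
    (hV : Fintype.card V = 2 * d * m) (G : SimpleGraph V)
    (hG : G.IsRegularOfDegree d) (K : ℕ) :
    ic G (K + 1) * ic (kddUnion d m) K ≤ ic (kddUnion d m) (K + 1) * ic G K := by
  rw [ic_card, ic_card, ic_card, ic_card]
  rcases Nat.lt_or_ge d 3 with hd | hd
  · rcases Nat.lt_or_ge d 2 with hd' | hd'
    · obtain rfl : d = 1 := by omega
      have h1 := one_regular G hG K
      have h2 := one_regular (kddUnion 1 m) (kdd_regular 1 m) K
      rw [hV] at h1
      rw [kdd_card 1 m] at h2
      apply le_of_eq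
      set a := cnt G univ (K + 1)
      set b := cnt G univ K
      set a' := cnt (kddUnion 1 m) univ (K + 1)
      set b' := cnt (kddUnion 1 m) univ K
      have h3 : (K + 1) * (a * b') = (K + 1) * (a' * b) := by
        have e1 : (K + 1) * a * b' + 2 * K * b * b' = 2 * 1 * m * b * b' := by
          rw [← add_mul, h1]
        have e2 : (K + 1) * a' * b + 2 * K * b' * b = 2 * 1 * m * b' * b := by
          rw [← add_mul, h2]
        have e3 : 2 * K * b * b' = 2 * K * b' * b := by ring
        have e4 : 2 * 1 * m * b * b' = 2 * 1 * m * b' * b := by ring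
        have e5 : (K + 1) * a * b' = (K + 1) * a' * b := by omega
        calc (K + 1) * (a * b') = (K + 1) * a * b' := by ring
          _ = (K + 1) * a' * b := e5
          _ = (K + 1) * (a' * b) := by ring
      exact Nat.eq_of_mul_eq_mul_left (by omega) h3
    · obtain rfl : d = 2 := by omega
      have h := H54.lr_two_regular m V (by rw [hV]) G hG K (K + 1) (by omega)
      rw [ic_card, ic_card, ic_card, ic_card] at h
      linarith
  · exact ratio_three d m hd hV G hG K

/-- independent sets of size at most the independence number exist -/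
lemma ic_pos {V : Type} [Fintype V] (G : SimpleGraph V) (k : ℕ) (hkα : k ≤ G.indepNum) :
    0 < ic G k := by
  unfold ic
  rw [Finset.card_pos]
  obtain ⟨I, hI⟩ := G.exists_isNIndepSet_indepNum
  obtain ⟨J, hJI, hJ⟩ := Finset.exists_subset_card_eq (s := I) (n := k)
    (by rw [hI.card_eq]; exact hkα)
  refine ⟨J, ?_⟩
  rw [SimpleGraph.mem_indepSetFinset_iff]
  exact ⟨hI.isIndepSet.mono (by exact_mod_cast hJI), hJ⟩

lemma kdd_ic_pos (d m : ℕ) (hd : 1 ≤ d) {V : Type} [Fintype V]
    (hV : Fintype.card V = 2 * d * m) (G : SimpleGraph V)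
    (hG : G.IsRegularOfDegree d) : ∀ k : ℕ, k ≤ G.indepNum → 0 < ic (kddUnion d m) k
  | 0, _ => kdd_pos d m 0 (Nat.zero_le _)
  | k + 1, hk => by
    have h1 := kdd_ic_pos d m hd hV G hG k (by omega)
    have h2 := ic_pos G (k + 1) hk
    have h3 := ratio_all d m hd hV G hG k
    rcases Nat.eq_zero_or_pos (ic (kddUnion d m) (k + 1)) with h | h
    · rw [h, zero_mul] at h3
      have := Nat.mul_pos h2 h1
      omega
    · exact h

/-- **Q1**, for all `d`, all `n`, all `k`. -/
theorem expectation (d m : ℕ) (hd : 1 ≤ d) {V : Type} [Fintype V]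
    (hV : Fintype.card V = 2 * d * m) (G : SimpleGraph V) (hG : G.IsRegularOfDegree d)
    (k : ℕ) (hkα : k ≤ G.indepNum) :
    expNbhd (kddUnion d m) k ≤ expNbhd G k := by
  have hGpos := ic_pos G k hkα
  have hHpos := kdd_ic_pos d m hd hV G hG k hkα
  have key := ratio_all d m hd hV G hG k
  rw [expNbhd_eq G hV hGpos, expNbhd_eq (kddUnion d m) (kdd_card d m) hHpos]
  have a1 : (0 : ℚ) < ic G k := by exact_mod_cast hGpos
  have a2 : (0 : ℚ) < ic (kddUnion d m) k := by exact_mod_cast hHpos
  have key' : (ic G (k + 1) : ℚ) * ic (kddUnion d m) k ≤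
      ic (kddUnion d m) (k + 1) * ic G k := by exact_mod_cast key
  have h5 : ((k : ℚ) + 1) * (ic G (k + 1) : ℚ) / ic G k ≤
      ((k : ℚ) + 1) * (ic (kddUnion d m) (k + 1) : ℚ) / ic (kddUnion d m) k := by
    rw [div_le_div_iff₀ a1 a2, mul_assoc, mul_assoc]
    exact mul_le_mul_of_nonneg_left key' (by positivity)
  linarith

end Pool.Agent.Lib.MP_99e3ed_co.H91
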